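import Pool.Agent.helper27.Probe.Defs

/-! Module M1 of the probe project: inner shift property of domains with smooth boundary. -/

open MeasureTheory Metric Set Filter Topology
open scoped ContDiff ENNReal

namespace Pool.Agent.helper27.Probe

/-- the shift property near a point with a defining function -/
private theorem shift_at {U W : Set E} {p : E} {ψ : E → ℝ} (hW : IsOpen W) (hp : p ∈ W)
    (hψ : ContDiffAt ℝ ∞ ψ p) (hL : fderiv ℝ ψ p ≠ 0) (h1 : ∀ y ∈ W, y ∈ U → ψ y ≤ 0)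
    (h2 : ∀ y ∈ W, ψ y < 0 → y ∈ U) :
    ∃ r > 0, ∃ a : E, ∃ c > 0, ∃ δ > 0, ‖a‖ = 1 ∧
      ∀ y ∈ ball p r ∩ U, ∀ s ∈ Ioo (0 : ℝ) δ, ball (y + s • a) (c * s) ⊆ U := by
  set L := fderiv ℝ ψ p with hLdef
  obtain ⟨a, ha1, ha2⟩ : ∃ a : E, ‖a‖ = 1 ∧ L a < 0 := by
    obtain ⟨v, hv⟩ : ∃ v, L v ≠ 0 := by
      by_contra hcon
      push Not at hcon
      exact hL (ContinuousLinearMap.ext (by simpa using hcon))
    have hv0 : v ≠ 0 := by
      rintro rfl
      simp at hv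
    have hn : 0 < ‖v‖ := norm_pos_iff.2 hv0
    have hn1 : ‖(‖v‖⁻¹ • v : E)‖ = 1 := by
      rw [norm_smul, norm_inv, norm_norm, inv_mul_cancel₀ hn.ne']
    rcases lt_or_gt_of_ne hv with h | h
    · refine ⟨‖v‖⁻¹ • v, hn1, ?_⟩
      rw [map_smul, smul_eq_mul]
      exact mul_neg_of_pos_of_neg (inv_pos.2 hn) h
    · refine ⟨-(‖v‖⁻¹ • v), by rw [norm_neg, hn1], ?_⟩
      rw [map_neg, map_smul, smul_eq_mul]
      exact neg_neg_of_pos (mul_pos (inv_pos.2 hn) h)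
  set m := -L a with hm
  have hm0 : 0 < m := by rw [hm]; linarith
  have hLn : 0 < ‖L‖ := norm_pos_iff.2 hL
  have hmL : m ≤ ‖L‖ := by
    have := L.le_opNorm a
    rw [ha1, mul_one, Real.norm_eq_abs] at this
    exact (neg_le_abs _).trans this
  set c := m / (4 * ‖L‖) with hc
  have hc0 : 0 < c := by positivity
  have hc1 : c ≤ 1 := by
    rw [hc, div_le_one (by positivity)]
    linarith
  have hcL : ‖L‖ * c = m / 4 := by
    rw [hc]; field_simp
  have hstrict : HasStrictFDerivAt ψ L p := hψ.hasStrictFDerivAt (by simp)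
  have hlo := hstrict.isLittleO.def (show (0 : ℝ) < m / 8 by positivity)
  obtain ⟨ε₁, hε₁, H₁⟩ := Metric.eventually_nhds_iff.1 hlo
  obtain ⟨ε₂, hε₂, H₂⟩ := Metric.isOpen_iff.1 hW p hp
  set ρ := min ε₁ ε₂ with hρ
  have hρ0 : 0 < ρ := lt_min hε₁ hε₂
  refine ⟨ρ / 2, by positivity, a, c, hc0, ρ / 4, by positivity, ha1, ?_⟩
  rintro y ⟨hy, hyU⟩ s ⟨hs0, hs1⟩ z hz
  rw [mem_ball, dist_eq_norm] at hy hz
  set w := z - (y + s • a) with hw
  have hwn : ‖w‖ < s := hz.trans_le (by nlinarith)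
  have hzy : z - y = s • a + w := by rw [hw]; abel
  have hzyn : ‖z - y‖ ≤ 2 * s := by
    rw [hzy]
    refine (norm_add_le _ _).trans ?_
    rw [norm_smul, ha1, Real.norm_eq_abs, abs_of_pos hs0]
    linarith
  have hzp : ‖z - p‖ < ρ := by
    have : z - p = (z - y) + (y - p) := by abel
    rw [this]
    refine (norm_add_le _ _).trans_lt ?_
    linarith
  have hyp : ‖y - p‖ < ρ := by linarith
  have hzW : z ∈ W := H₂ (by rw [mem_ball, dist_eq_norm]; exact hzp.trans_le (min_le_right _ _))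
  have hyW : y ∈ W := H₂ (by rw [mem_ball, dist_eq_norm]; exact hyp.trans_le (min_le_right _ _))
  have key := H₁ (y := (z, y)) (by
    rw [Prod.dist_eq]
    simp only [dist_eq_norm]
    exact max_lt (hzp.trans_le (min_le_left _ _)) (hyp.trans_le (min_le_left _ _)))
  simp only at key
  rw [Real.norm_eq_abs] at key
  have key2 := (abs_le.1 key).2
  have hLz : L (z - y) ≤ -(s * m) + s * (m / 4) := by
    rw [hzy, map_add, map_smul, smul_eq_mul]
    have h3 : L w ≤ ‖L‖ * ‖w‖ := (le_abs_self _).trans (L.le_opNorm w)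
    have h4 : ‖L‖ * ‖w‖ ≤ ‖L‖ * (c * s) := mul_le_mul_of_nonneg_left hz.le hLn.le
    have h5 : ‖L‖ * (c * s) = s * (m / 4) := by rw [← mul_assoc, hcL]; ring
    have h6 : s * L a = -(s * m) := by rw [hm]; ring
    linarith
  have h7 : m / 8 * ‖z - y‖ ≤ m / 8 * (2 * s) := mul_le_mul_of_nonneg_left hzyn (by positivity)
  refine h2 z hzW ?_
  have h8 := h1 y hyW hyU
  have h9 : 0 < s * m := mul_pos hs0 hm0
  linarith

theorem shift_D {Ω D : Set E} (hG : Geometry Ω D) : InnerShift D := by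
  intro p hp
  obtain ⟨W, ψ, hW, hpW, hψ, hL, h⟩ := hG.smoothD p hp
  exact shift_at hW hpW (hψ.contDiffAt (hW.mem_nhds hpW)) hL (fun y hy hyU => ((h y hy).1 hyU).le)
    (fun y hy hy0 => (h y hy).2 hy0)

theorem shift_U {Ω D : Set E} (hG : Geometry Ω D) : InnerShift (Ω \ closure D) := by
  intro p hp
  have hUo : IsOpen (Ω \ closure D) := hG.openΩ.sdiff isClosed_closure
  rw [hUo.frontier_eq] at hp
  obtain ⟨hpc, hpn⟩ := hp
  by_cases hpD : p ∈ closure D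
  · have hpΩ : p ∈ Ω := hG.sub hpD
    have hpD' : p ∉ D := by
      intro hpD'
      obtain ⟨y, hyD, hyU⟩ := mem_closure_iff.1 hpc D hG.openD hpD'
      exact hyU.2 (subset_closure hyD)
    obtain ⟨W, ψ, hW, hpW, hψ, hL, h⟩ := hG.smoothD p (by
      rw [hG.openD.frontier_eq]; exact ⟨hpD, hpD'⟩)
    have hcd := hψ.contDiffAt (hW.mem_nhds hpW)
    refine shift_at (W := W ∩ Ω) (ψ := fun y => -ψ y) (hW.inter hG.openΩ) ⟨hpW, hpΩ⟩ hcd.neg ?_ ?_ ?_
    · rw [fderiv_fun_neg]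
      exact neg_ne_zero.2 hL
    · rintro y ⟨hyW, -⟩ ⟨-, hyD⟩
      have : ¬ ψ y < 0 := fun hc => hyD (subset_closure ((h y hyW).2 hc))
      linarith [not_lt.1 this]
    · rintro z ⟨hzW, hzΩ⟩ hz0
      refine ⟨hzΩ, fun hzD => ?_⟩
      have hz1 : 0 < ψ z := by linarith
      have hcont : ContinuousOn ψ W := hψ.continuousOn
      have hopen : IsOpen (W ∩ ψ ⁻¹' (Ioi 0)) := hcont.isOpen_inter_preimage hW isOpen_Ioi
      obtain ⟨y, hy, hyD⟩ := mem_closure_iff.1 hzD _ hopen ⟨hzW, hz1⟩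
      have h3 := (h y hy.1).1 hyD
      have h4 : 0 < ψ y := hy.2
      linarith
  · have hpΩ : p ∉ Ω := fun hc => hpn ⟨hc, hpD⟩
    obtain ⟨W, ψ, hW, hpW, hψ, hL, h⟩ := hG.smoothΩ p (by
      rw [hG.openΩ.frontier_eq]; exact ⟨closure_mono sdiff_subset hpc, hpΩ⟩)
    refine shift_at (W := W \ closure D) (ψ := ψ) (hW.sdiff isClosed_closure) ⟨hpW, hpD⟩
      (hψ.contDiffAt (hW.mem_nhds hpW)) hL ?_ ?_
    · rintro y ⟨hyW, -⟩ ⟨hyΩ, -⟩
      exact ((h y hyW).1 hyΩ).le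
    · rintro z ⟨hzW, hzD⟩ hz0
      exact ⟨(h z hzW).2 hz0, hzD⟩

end Pool.Agent.helper27.Probe
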