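import Pool.Agent.helper27.Probe.Defs

/-! Module M14a of the probe project: cones inside an open set which miss the needle. -/

open MeasureTheory Metric Set Filter Topology
open scoped ContDiff ENNReal

namespace Pool.Agent.helper27.Probe

/-- the shape of a needle near its end -/
private theorem needle_end {Ω : Set E} {x : E} {σ : ℝ → E} (hσ : Needle Ω x σ) :
    ∃ (b : E) (ρ : ℝ), 0 < ρ ∧ ∀ y ∈ ball x ρ, y ∈ σ '' Icc 0 1 → ∃ r : ℝ, 0 ≤ r ∧ y = x - r • b := by
  obtain ⟨m, t, ht0, htm, hti, hpl⟩ := hσ.pl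
  have hm : m ≠ 0 := by
    rintro rfl
    rw [ht0] at htm
    norm_num at htm
  obtain ⟨k, rfl⟩ : ∃ k, m = k + 1 := ⟨m - 1, by omega⟩
  have htn : ∀ i ≤ k, 0 ≤ t i := by
    intro i
    induction i with
    | zero => intro _; rw [ht0]
    | succ j ih =>
      intro hj
      exact (ih (by omega)).trans (hti j (by omega)).le
  have hk0 : 0 ≤ t k := htn k le_rfl
  have hk1 : t k < 1 := by
    have := hti k (by omega)
    rwa [htm] at this
  obtain ⟨a, b, hab⟩ := hpl k (by omega)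
  rw [htm] at hab
  have hx1 : x = a + b := by
    rw [← hσ.finish, hab 1 ⟨hk1.le, le_rfl⟩, one_smul]
  have hcomp : IsCompact (σ '' Icc 0 (t k)) :=
    isCompact_Icc.image_of_continuousOn (hσ.cont.mono (Icc_subset_Icc_right hk1.le))
  have hxn : x ∉ σ '' Icc 0 (t k) := by
    rintro ⟨s, hs, hsx⟩
    rw [← hσ.finish] at hsx
    have := hσ.inj ⟨hs.1, hs.2.trans hk1.le⟩ ⟨zero_le_one, le_rfl⟩ hsx
    linarith [hs.2]
  have hnh : (σ '' Icc 0 (t k))ᶜ ∈ 𝓝 x := hcomp.isClosed.isOpen_compl.mem_nhds hxn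
  obtain ⟨ρ, hρ, hball⟩ := Metric.mem_nhds_iff.1 hnh
  refine ⟨b, ρ, hρ, ?_⟩
  rintro y hy ⟨s, hs, rfl⟩
  have hs1 : t k < s := by
    by_contra hcon
    exact hball hy ⟨s, ⟨hs.1, not_lt.1 hcon⟩, rfl⟩
  refine ⟨1 - s, by linarith [hs.2], ?_⟩
  rw [hab s ⟨hs1.le, hs.2⟩, hx1, sub_smul, one_smul]
  abel

/-- shifted balls at a point of the closure -/
private theorem shift_balls {A : Set E} (hA : IsOpen A) {x : E}
    (hx : x ∈ A ∨ (x ∈ frontier A ∧ InnerShift A)) :
    ∃ (a : E) (κ δ : ℝ), ‖a‖ = 1 ∧ 0 < κ ∧ 0 < δ ∧ ∀ s ∈ Ioo (0 : ℝ) δ, ball (x + s • a) (κ * s) ⊆ A := by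
  rcases hx with hx | ⟨hx, hs⟩
  · obtain ⟨ε, hε, hb⟩ := Metric.isOpen_iff.1 hA x hx
    have he : ‖e 0‖ = 1 := by simp [e]
    refine ⟨e 0, 1, ε / 2, he, one_pos, by positivity, ?_⟩
    rintro s ⟨hs0, hs1⟩ z hz
    apply hb
    rw [mem_ball, dist_eq_norm] at hz ⊢
    have : z - x = (z - (x + s • e 0)) + s • e 0 := by abel
    rw [this]
    refine (norm_add_le _ _).trans_lt ?_
    rw [norm_smul, he, Real.norm_eq_abs, abs_of_pos hs0]
    linarith
  · obtain ⟨r, hr, a, c, hc, δ, hδ, ha, H⟩ := hs x hx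
    refine ⟨a, c, δ, ha, hc, hδ, ?_⟩
    rintro s hs z hz
    rw [mem_ball, dist_eq_norm] at hz
    obtain ⟨y, hyA, hy⟩ := Metric.mem_closure_iff.1 hx.1 (min r (c * s - ‖z - (x + s • a)‖))
      (lt_min hr (by linarith))
    rw [dist_comm] at hy
    refine H y ⟨mem_ball.2 (hy.trans_le (min_le_left _ _)), hyA⟩ s hs ?_
    rw [mem_ball, dist_eq_norm]
    have h1 : z - (y + s • a) = (z - (x + s • a)) + (x - y) := by abel
    rw [h1]
    refine (norm_add_le _ _).trans_lt ?_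
    have h2 := hy.trans_le (min_le_right _ _)
    rw [dist_comm, dist_eq_norm] at h2
    linarith

/-- a unit vector near `a` which is different from a given one -/
private theorem exists_unit (a b : E) (ha : ‖a‖ = 1) {κ : ℝ} (hκ : 0 < κ) :
    ∃ d : E, ‖d‖ = 1 ∧ ‖d - a‖ < κ ∧ d ≠ b := by
  by_cases hab : a = b
  · subst hab
    obtain ⟨u, hu⟩ : ∃ u : E, ∀ l : ℝ, u ≠ l • a := by
      by_contra hcon
      push Not at hcon
      obtain ⟨l, hl⟩ := hcon (e 0)
      obtain ⟨l', hl'⟩ := hcon (e 1)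
      have h00 : l * a 0 = 1 := by
        have := congrArg (fun v : E => v 0) hl
        simpa [e] using this.symm
      have h01 : l * a 1 = 0 := by
        have := congrArg (fun v : E => v 1) hl
        simpa [e] using this.symm
      have h11 : l' * a 1 = 1 := by
        have := congrArg (fun v : E => v 1) hl'
        simpa [e] using this.symm
      have hl0 : l ≠ 0 := by rintro rfl; simp at h00
      have ha1 : a 1 = 0 := by
        rcases mul_eq_zero.1 h01 with h | h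
        · exact absurd h hl0
        · exact h
      rw [ha1] at h11
      simp at h11
    have hne : ∀ t : ℝ, t ≠ 0 → a + t • u ≠ 0 := by
      intro t ht h0
      refine hu (-t⁻¹) ?_
      have : t • u = -a := by rw [← add_eq_zero_iff_eq_neg, add_comm]; exact h0
      rw [neg_smul, ← smul_neg, ← this, smul_smul, inv_mul_cancel₀ ht, one_smul]
    have ha0 : a ≠ 0 := by rintro rfl; simp at ha
    have hcont : Tendsto (fun t : ℝ => ‖a + t • u‖⁻¹ • (a + t • u)) (𝓝[≠] 0) (𝓝 a) := by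
      have h1 : Tendsto (fun t : ℝ => a + t • u) (𝓝 0) (𝓝 a) := by
        have : Continuous (fun t : ℝ => a + t • u) := by fun_prop
        simpa using this.tendsto 0
      have h2 : Tendsto (fun t : ℝ => ‖a + t • u‖⁻¹ • (a + t • u)) (𝓝 0) (𝓝 (‖a‖⁻¹ • a)) :=
        (h1.norm.inv₀ (norm_ne_zero_iff.2 ha0)).smul h1
      rw [ha, inv_one, one_smul] at h2
      exact h2.mono_left nhdsWithin_le_nhds
    have hev := (hcont.eventually (Metric.ball_mem_nhds a hκ)).and self_mem_nhdsWithin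
    obtain ⟨t, ht1, ht0⟩ := hev.exists
    have ht0 : t ≠ 0 := ht0
    have hpos : 0 < ‖a + t • u‖ := norm_pos_iff.2 (hne t ht0)
    refine ⟨‖a + t • u‖⁻¹ • (a + t • u), ?_, ?_, ?_⟩
    · rw [norm_smul, norm_inv, norm_norm, inv_mul_cancel₀ hpos.ne']
    · rw [← dist_eq_norm]
      exact ht1
    · intro hc
      have h3 : a + t • u = ‖a + t • u‖ • a := by
        have h5 := congrArg (fun v : E => ‖a + t • u‖ • v) hc
        simpa only [smul_smul, mul_inv_cancel₀ hpos.ne', one_smul] using h5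
      refine hu (t⁻¹ * (‖a + t • u‖ - 1)) ?_
      have h4 : t • u = (‖a + t • u‖ - 1) • a := by
        rw [sub_smul, one_smul, ← h3]; abel
      rw [mul_smul, ← h4, smul_smul, inv_mul_cancel₀ ht0, one_smul]
  · exact ⟨a, ha, by simpa using hκ, hab⟩

theorem cone_in {Ω A : Set E} (hA : IsOpen A) {x : E} {σ : ℝ → E} (hσ : Needle Ω x σ)
    (hx : x ∈ A ∨ (x ∈ frontier A ∧ InnerShift A)) :
    ∃ (d : E) (ρ α : ℝ), ‖d‖ = 1 ∧ 0 < ρ ∧ 0 < α ∧ α < 1 ∧ cone x d ρ α ⊆ A \ σ '' Icc 0 1 := by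
  obtain ⟨a, κ, δ, ha, hκ, hδ, hballs⟩ := shift_balls hA hx
  obtain ⟨b, ρ₁, hρ₁, hneedle⟩ := needle_end hσ
  obtain ⟨d, hd, hda, hdb⟩ := exists_unit a (-(‖b‖⁻¹ • b)) ha (show 0 < κ / 2 by positivity)
  -- the strict Cauchy-Schwarz inequality
  have hcs : b ≠ 0 → inner ℝ (-b) d < ‖b‖ := by
    intro hb
    have hbn : 0 < ‖b‖ := norm_pos_iff.2 hb
    have h1 := real_inner_le_norm (-b) d
    rw [norm_neg, hd, mul_one] at h1
    refine lt_of_le_of_ne h1 fun heq => hdb ?_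
    have h2 : inner ℝ (-b) d = ‖-b‖ * ‖d‖ := by rw [norm_neg, hd, mul_one]; exact heq
    have h3 := (inner_eq_norm_mul_iff_real).1 h2
    rw [norm_neg, hd, one_smul] at h3
    rw [← smul_neg, h3, smul_smul, inv_mul_cancel₀ hbn.ne', one_smul]
  -- choice of the opening
  set M := max (max (1 - κ ^ 2 / 8) (inner ℝ (-b) d / ‖b‖)) 0 with hM
  have hM1 : M < 1 := by
    refine max_lt (max_lt (by nlinarith) ?_) one_pos
    by_cases hb : b = 0
    · simp [hb]
    · rw [div_lt_one (norm_pos_iff.2 hb)]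
      exact hcs hb
  have hcos : Tendsto (fun α : ℝ => Real.cos (Real.pi * α / 2)) (𝓝[>] 0) (𝓝 1) := by
    have hc : Continuous (fun α : ℝ => Real.cos (Real.pi * α / 2)) := by fun_prop
    have := hc.tendsto 0
    simp only [mul_zero, zero_div, Real.cos_zero] at this
    exact this.mono_left nhdsWithin_le_nhds
  have hev : ∀ᶠ α in 𝓝[>] (0 : ℝ), M < Real.cos (Real.pi * α / 2) := hcos.eventually (lt_mem_nhds hM1)
  have hev2 : ∀ᶠ α in 𝓝[>] (0 : ℝ), α ∈ Ioo (0 : ℝ) 1 := Ioo_mem_nhdsGT one_pos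
  obtain ⟨α, hαM, hα0, hα1⟩ := (hev.and hev2).exists
  set C := Real.cos (Real.pi * α / 2) with hC
  have hC0 : 0 < C := (le_max_right _ _).trans_lt hαM
  have hC1 : 1 - κ ^ 2 / 8 < C := ((le_max_left _ _).trans (le_max_left _ _)).trans_lt hαM
  have hC2 : inner ℝ (-b) d / ‖b‖ < C := ((le_max_right _ _).trans (le_max_left _ _)).trans_lt hαM
  refine ⟨d, min δ ρ₁, α, hd, lt_min hδ hρ₁, hα0, hα1, ?_⟩
  rintro y ⟨hyb, hyc⟩
  have hyc'' : y ∈ {y | ‖y - x‖ * Real.cos (Real.pi * α / 2) ≤ inner ℝ (y - x) d} :=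
    interior_subset hyc
  have hyc' : ‖y - x‖ * C ≤ inner ℝ (y - x) d := hyc''
  have hyx : y ≠ x := by
    rintro rfl
    have hnh := mem_interior_iff_mem_nhds.1 hyc
    have htend : Tendsto (fun t : ℝ => y - t • d) (𝓝[>] 0) (𝓝 y) := by
      have hc : Continuous (fun t : ℝ => y - t • d) := by fun_prop
      have := hc.tendsto 0
      simp only [zero_smul, sub_zero] at this
      exact this.mono_left nhdsWithin_le_nhds
    obtain ⟨t, ht1, ht0⟩ := ((htend.eventually hnh).and self_mem_nhdsWithin).exists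
    have ht0 : 0 < t := ht0
    have ht2 : ‖y - t • d - y‖ * C ≤ inner ℝ (y - t • d - y) d := ht1
    have h3 : y - t • d - y = -(t • d) := by abel
    rw [h3, norm_neg, norm_smul, hd, Real.norm_eq_abs, abs_of_pos ht0, inner_neg_left,
      real_inner_smul_left, real_inner_self_eq_norm_sq, hd] at ht2
    have : 0 < t * C := mul_pos ht0 hC0
    nlinarith
  set v := y - x with hv
  have hv0 : v ≠ 0 := sub_ne_zero.2 hyx
  set s := ‖v‖ with hs
  have hs0 : 0 < s := norm_pos_iff.2 hv0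
  have hyb' : s < min δ ρ₁ := by rw [hs, hv, ← dist_eq_norm]; exact hyb
  refine ⟨?_, ?_⟩
  · refine hballs s ⟨hs0, hyb'.trans_le (min_le_left _ _)⟩ ?_
    rw [mem_ball, dist_eq_norm]
    have h1 : y - (x + s • a) = (v - s • d) + s • (d - a) := by
      rw [hv, smul_sub]; abel
    have h2 : ‖v - s • d‖ ^ 2 ≤ (s * (κ / 2)) ^ 2 := by
      rw [@norm_sub_sq_real, norm_smul, hd, real_inner_smul_right, Real.norm_eq_abs, abs_of_pos hs0,
        ← hs]
      have h5 : s * (s * C) ≤ s * inner ℝ v d := mul_le_mul_of_nonneg_left hyc' hs0.le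
      have h6 : s ^ 2 * (1 - κ ^ 2 / 8) ≤ s ^ 2 * C := mul_le_mul_of_nonneg_left hC1.le (by positivity)
      nlinarith
    have h3 : ‖v - s • d‖ ≤ s * (κ / 2) := abs_le_of_sq_le_sq' h2 (by positivity) |>.2
    rw [h1]
    refine (norm_add_le _ _).trans_lt ?_
    rw [norm_smul, Real.norm_eq_abs, abs_of_pos hs0]
    have h4 : s * ‖d - a‖ < s * (κ / 2) := mul_lt_mul_of_pos_left hda hs0
    linarith
  · intro hyσ
    obtain ⟨r, hr0, hr⟩ := hneedle y (by rw [mem_ball, dist_eq_norm]; exact hyb'.trans_le (min_le_right _ _)) hyσ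
    have hvr : v = r • (-b) := by rw [hv, hr, smul_neg]; abel
    have hb : b ≠ 0 := by rintro rfl; simp at hvr; exact hv0 hvr
    have hbn : 0 < ‖b‖ := norm_pos_iff.2 hb
    have hr1 : 0 < r := by
      rcases hr0.lt_or_eq with h | h
      · exact h
      · rw [← h, zero_smul] at hvr; exact absurd hvr hv0
    rw [div_lt_iff₀ hbn] at hC2
    have h7 : ‖v‖ * C ≤ inner ℝ v d := hyc'
    rw [hvr, norm_smul, norm_neg, real_inner_smul_left, Real.norm_eq_abs, abs_of_pos hr1] at h7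
    nlinarith

end Pool.Agent.helper27.Probe
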